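import Pool.Agent.H63.Cas2

set_option autoImplicit false

namespace Pool.Agent.Results.MP_3f01e7_al.Full

open H63.Cas

theorem result :
    (∃ (X D : Type) (_ : TopologicalSpace X) (_ : MeasurableSpace X)
      (_ : TopologicalSpace D) (_ : MeasurableSpace D),
      T2Space X ∧ LocallyCompactSpace X ∧ SecondCountableTopology X ∧ BorelSpace X ∧
      T2Space D ∧ LocallyCompactSpace D ∧ SecondCountableTopology D ∧ BorelSpace D ∧
      ∃ C : CAS X D, C.T1 ∧ ¬ C.T2) ∧
    (∀ (X D : Type) [TopologicalSpace X] [T2Space X] [LocallyCompactSpace X]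
      [SecondCountableTopology X] [MeasurableSpace X] [BorelSpace X] [Nonempty X]
      [TopologicalSpace D] [T2Space D] [LocallyCompactSpace D]
      [SecondCountableTopology D] [MeasurableSpace D] [BorelSpace D] (C : CAS X D),
      (∀ a b, C.H.conv a b = C.H.conv b a) → C.T1 → C.T2) :=
  ⟨⟨AB, AB, inferInstance, inferInstance, inferInstance, inferInstance, inferInstance,
    inferInstance, inferInstance, inferInstance, inferInstance, inferInstance, inferInstance,
    inferInstance, grpCAS AB, grpCAS_T1 AB, AB_not_T2 _ rfl⟩,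
    fun _ _ _ _ _ _ _ _ _ _ _ _ _ _ _ _ hc h1 => CAS.T2_of_T1 hc h1⟩

end Pool.Agent.Results.MP_3f01e7_al.Full
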